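import Pool.Agent.Q287.DP.Prob

/-!
# The rescaled maximal detached group has no weak limit in the space of continuous paths
-/

namespace Pool.Agent.Results.MP_d01e83_pr.NoLimitInC

open MeasureTheory ProbabilityTheory Finset Filter Topology
open Pool.Agent.Q287.DP

/-- grid points `1 + i / N` -/
noncomputable def s (N i : ℕ) : Set.Ioi (0 : ℝ) := ⟨1 + (i:ℝ) / N, by
  rw [Set.mem_Ioi]; positivity⟩

theorem s_val (N i : ℕ) : ((s N i : Set.Ioi (0:ℝ)) : ℝ) = 1 + (i:ℝ) / N := rfl

/-- bounded continuous functional detecting increments larger than `δ / 2` on a grid -/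
noncomputable def Phi (N B : ℕ) (δ : ℝ) : BoundedContinuousFunction PathSpace ℝ :=
  BoundedContinuousFunction.ofNormedAddCommGroup
    (fun f : PathSpace => min 1 (∑ i ∈ range (N * B), max (|f (s N (i+2)) - f (s N i)| - δ / 2) 0))
    (by
      refine continuous_const.min (continuous_finsetSum _ fun i _ => ?_)
      refine Continuous.max (Continuous.sub (Continuous.abs ?_) continuous_const) continuous_const
      exact (continuous_eval_const _).sub (continuous_eval_const _))
    1
    (by
      intro f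
      have h : 0 ≤ ∑ i ∈ range (N * B), max (|f (s N (i+2)) - f (s N i)| - δ / 2) 0 :=
        Finset.sum_nonneg fun i _ => le_max_right _ _
      rw [Real.norm_eq_abs, abs_of_nonneg (le_min zero_le_one h)]
      exact min_le_left _ _)

theorem Phi_apply (N B : ℕ) (δ : ℝ) (f : PathSpace) : Phi N B δ f =
    min 1 (∑ i ∈ range (N * B), max (|f (s N (i+2)) - f (s N i)| - δ / 2) 0) := rfl

/-- bounded continuous functional detecting a large value at time `1` -/
noncomputable def Psi (A : ℕ) : BoundedContinuousFunction PathSpace ℝ :=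
  BoundedContinuousFunction.ofNormedAddCommGroup
    (fun f : PathSpace => min 1 (max (f (s 1 0) - A + 1) 0))
    (by
      refine continuous_const.min (Continuous.max ?_ continuous_const)
      exact ((continuous_eval_const _).sub continuous_const).add continuous_const)
    1
    (by
      intro f
      rw [Real.norm_eq_abs, abs_of_nonneg (le_min zero_le_one (le_max_right _ _))]
      exact min_le_left _ _)

theorem Psi_apply (A : ℕ) (f : PathSpace) : Psi A f = min 1 (max (f (s 1 0) - A + 1) 0) := rfl

theorem Phi_tendsto (B : ℕ) {δ : ℝ} (hδ : 0 < δ) (f : PathSpace) :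
    Tendsto (fun N : ℕ => Phi N B δ f) atTop (𝓝 0) := by
  refine tendsto_const_nhds.congr' ?_
  set g : ℝ → ℝ := fun t => f ⟨max t 1, Set.mem_Ioi.2 (lt_of_lt_of_le zero_lt_one (le_max_right _ _))⟩
    with hg
  have hgc : Continuous g := f.continuous.comp (by fun_prop)
  have huc := isCompact_Icc.uniformContinuousOn_of_continuous
    (hgc.continuousOn (s := Set.Icc (1:ℝ) (B + 3)))
  rw [Metric.uniformContinuousOn_iff] at huc
  obtain ⟨η, hη, hη2⟩ := huc (δ / 2) (by positivity)
  obtain ⟨N0, hN0⟩ := exists_nat_gt (2 / η)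
  filter_upwards [eventually_ge_atTop (max N0 1)] with N hN
  have hN1 : 1 ≤ N := (le_max_right _ _).trans hN
  have hNr : (1:ℝ) ≤ N := by exact_mod_cast hN1
  have hNpos : (0:ℝ) < N := by linarith
  have hN0' : (N0:ℝ) ≤ N := by exact_mod_cast (le_max_left _ _).trans hN
  have hsmall : 2 / (N:ℝ) < η := by
    rw [div_lt_iff₀ hNpos]
    rw [div_lt_iff₀ hη] at hN0
    nlinarith
  rw [Phi_apply]
  have hsum : ∑ i ∈ range (N * B), max (|f (s N (i+2)) - f (s N i)| - δ / 2) 0 = 0 := by
    refine Finset.sum_eq_zero fun i hi => max_eq_right ?_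
    have hiB : (i:ℝ) + 1 ≤ N * B := by exact_mod_cast Finset.mem_range.1 hi
    have hval : ∀ k : ℕ, f (s N k) = g (1 + (k:ℝ) / N) := by
      intro k
      simp only [hg]
      congr 1
      refine Subtype.ext ?_
      rw [s_val]
      change 1 + (k:ℝ) / N = max (1 + (k:ℝ) / N) 1
      rw [max_eq_left]
      have : 0 ≤ (k:ℝ) / N := by positivity
      linarith
    rw [hval, hval]
    have h1 : (i:ℝ) / N ≤ B := by
      rw [div_le_iff₀ hNpos]; linarith [mul_comm (N:ℝ) B]
    have h2 : ((i+2 : ℕ):ℝ) / N = (i:ℝ) / N + 2 / N := by push_cast; ring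
    have h3 : 2 / (N:ℝ) ≤ 2 := by rw [div_le_iff₀ hNpos]; linarith
    have h4 : 0 ≤ (i:ℝ) / N := by positivity
    have h5 : 0 ≤ 2 / (N:ℝ) := by positivity
    have := hη2 (1 + ((i+2 : ℕ):ℝ) / N) ⟨by rw [h2]; linarith, by rw [h2]; linarith⟩
      (1 + (i:ℝ) / N) ⟨by linarith, by linarith⟩ (by
        rw [Real.dist_eq, h2]
        have : 1 + ((i:ℝ) / N + 2 / N) - (1 + (i:ℝ) / N) = 2 / N := by ring
        rw [this, abs_of_nonneg h5]
        exact hsmall)
    rw [Real.dist_eq] at this
    linarith
  rw [hsum]; simp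

theorem Psi_tendsto (f : PathSpace) : Tendsto (fun A : ℕ => Psi A f) atTop (𝓝 0) := by
  refine tendsto_const_nhds.congr' ?_
  obtain ⟨A0, hA0⟩ := exists_nat_ge (f (s 1 0) + 1)
  filter_upwards [eventually_ge_atTop A0] with A hA
  have : (A0:ℝ) ≤ A := by exact_mod_cast hA
  rw [Psi_apply, max_eq_right (by linarith)]
  simp

/-- **Main theorem.**  `J i ω k` tells whether passenger `i` moves to bus `k` at time `k`.  The
passengers are independent, the moves of one passenger at different times are independent, and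
the move at time `k ≥ 2` has probability `1 / k`.  Then random elements `X m` of the space of
continuous paths on `(0, ∞)` which coincide with `M^(m)` on `[1/m², ∞)` exist, and for no choice
of them do the laws of `X m` converge weakly as `m → ∞`. -/
theorem result {Ω : Type*} [MeasurableSpace Ω] (P : ProbabilityMeasure Ω)
    (J : ℕ → Ω → ℕ → Bool) (hJ : ∀ i, Measurable (J i)) (hpass : iIndepFun J (P : Measure Ω))
    (htime : ∀ i, iIndepFun (fun k ω => J i ω k) (P : Measure Ω))
    (hlaw : ∀ i k, 2 ≤ k → (P : Measure Ω) {ω | J i ω k = true} = ENNReal.ofReal (1 / k)) :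
    (∃ X : ℕ → Ω → PathSpace, (∀ m, Measurable (X m)) ∧
      ∀ (m : ℕ) ω (t : Set.Ioi (0:ℝ)), 1 ≤ (m : ℝ) ^ 2 * (t : ℝ) →
        X m ω t = rescaled (fun i => J i ω) m t) ∧
    ∀ X : ℕ → Ω → PathSpace, ∀ hX : ∀ m, Measurable (X m),
      (∀ (m : ℕ) ω (t : Set.Ioi (0:ℝ)), 1 ≤ (m : ℝ) ^ 2 * (t : ℝ) →
        X m ω t = rescaled (fun i => J i ω) m t) →
      ¬ ∃ μ : ProbabilityMeasure PathSpace,
        Tendsto (fun m => P.map (hX m).aemeasurable) atTop (𝓝 μ) := by
  refine ⟨⟨fun m ω => path (fun i => J i ω) m, fun m =>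
    (path_meas m).comp (measurable_pi_lambda _ hJ), fun m ω t ht => path_apply _ m t ht⟩, ?_⟩
  rintro X hX hXM ⟨μ, hμ⟩
  have hJm : Measurable fun ω => (fun i => J i ω : ℕ → ℕ → Bool) := measurable_pi_lambda _ hJ
  rw [ProbabilityMeasure.tendsto_iff_forall_integral_tendsto] at hμ
  have hmap : ∀ (m : ℕ) (Φ : BoundedContinuousFunction PathSpace ℝ),
      ∫ f, Φ f ∂((P.map (hX m).aemeasurable : ProbabilityMeasure PathSpace) : Measure PathSpace) =
      ∫ ω, Φ (X m ω) ∂(P : Measure Ω) := by
    intro m Φ
    exact integral_map (hX m).aemeasurable Φ.continuous.aestronglyMeasurable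
  simp only [hmap] at hμ
  have hint : ∀ (m : ℕ) (Φ : BoundedContinuousFunction PathSpace ℝ),
      Integrable (fun ω => Φ (X m ω)) (P : Measure Ω) := fun m Φ =>
    Integrable.of_bound (Φ.continuous.measurable.comp (hX m)).aestronglyMeasurable ‖Φ‖
      (ae_of_all _ fun ω => Φ.norm_coe_le_norm _)
  -- choose `A`
  have hA : ∃ A : ℕ, 1 ≤ A ∧ ∫ f, Psi A f ∂(μ : Measure PathSpace) < 1 / 4 := by
    have h1 : Tendsto (fun A : ℕ => ∫ f, Psi A f ∂(μ : Measure PathSpace)) atTop
        (𝓝 (∫ _f : PathSpace, (0:ℝ) ∂(μ : Measure PathSpace))) := by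
      refine tendsto_integral_of_dominated_convergence (fun _ => 1)
        (fun A => (Psi A).continuous.aestronglyMeasurable) (integrable_const 1)
        (fun A => ae_of_all _ fun f => ?_) (ae_of_all _ fun f => Psi_tendsto f)
      rw [Psi_apply, Real.norm_eq_abs, abs_of_nonneg (le_min zero_le_one (le_max_right _ _))]
      exact min_le_left _ _
    rw [integral_zero] at h1
    obtain ⟨A, hA1, hA2⟩ := ((h1.eventually_lt_const (by norm_num : (0:ℝ) < 1 / 4)).and
      (eventually_ge_atTop 1)).exists
    exact ⟨A, hA2, hA1⟩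
  obtain ⟨A, hA1, hA2⟩ := hA
  have hAr : (1:ℝ) ≤ A := by exact_mod_cast hA1
  set δ : ℝ := 1 / (8 * A) with hδ
  have hδpos : 0 < δ := by positivity
  have hδ1 : δ ≤ 1 / 8 := by
    rw [hδ]; exact one_div_le_one_div_of_le (by norm_num) (by linarith)
  set B : ℕ := 4 * A ^ 2 with hB
  have hPsi := (hμ (Psi A)).eventually_lt_const hA2
  -- lower bound for all large `m`
  have hlow : ∀ᶠ m : ℕ in atTop, ∀ N : ℕ, 1 ≤ N → N ≤ m →
      δ / 8 ≤ ∫ ω, Phi N B δ (X m ω) ∂(P : Measure Ω) := by
    filter_upwards [hPsi, eventually_ge_atTop (8 * A)] with m hm1 hm2 N hN1 hNm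
    have hm0 : 1 ≤ m := by omega
    have hmr : (1:ℝ) ≤ m := by exact_mod_cast hm0
    have hmpos : (0:ℝ) < m := by linarith
    have hm8 : (8:ℝ) * A ≤ m := by exact_mod_cast hm2
    set n : ℕ := A * m with hn
    set d : ℕ := m / (8 * A) with hd
    have hdle : (d:ℝ) * (8 * A) ≤ m := by
      have := Nat.div_mul_le_self m (8 * A)
      exact_mod_cast this
    have hd1 : (m:ℝ) < (d + 1) * (8 * A) := by
      have := Nat.lt_div_mul_add (a := m) (b := 8 * A) (by omega)
      rw [← hd] at this
      have h2 : (m:ℝ) < d * (8 * A) + 8 * A := by exact_mod_cast this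
      linarith
    have hK0 : 1 ≤ m ^ 2 := Nat.one_le_pow _ _ hm0
    have hnd : n + d ≤ m ^ 2 := by
      have h1 : d ≤ m := Nat.div_le_self _ _
      have h2 : (8 * A) * m ≤ m * m := Nat.mul_le_mul_right _ hm2
      have h3 : m ≤ A * m := by nlinarith
      rw [hn]
      nlinarith
    have hθ : 1 / 2 ≤ 1 - (d:ℝ) * (n + d) / ((m ^ 2 : ℕ):ℝ) := by
      have h1 : (d:ℝ) * (n + d) / ((m ^ 2 : ℕ):ℝ) ≤ 1 / 2 := by
        rw [div_le_iff₀ (by push_cast; positivity)]
        have h2 : (d:ℝ) ≤ m := by exact_mod_cast Nat.div_le_self _ _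
        have h3 : ((n:ℕ):ℝ) = A * m := by rw [hn]; push_cast; ring
        rw [h3]
        push_cast
        have h4 : (m:ℝ) ≤ A * m := by nlinarith
        have h5 : (d:ℝ) * (A * m + d) ≤ d * (2 * A * m) :=
          mul_le_mul_of_nonneg_left (by linarith) (by positivity)
        have h6 : (d:ℝ) * (2 * A * m) = (d * (8 * A)) * (m / 4) := by ring
        have h7 : (d * (8 * A) : ℝ) * (m / 4) ≤ m * (m / 4) :=
          mul_le_mul_of_nonneg_right hdle (by positivity)
        nlinarith
      linarith
    -- probabilities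
    have hp1 : (P : Measure Ω).real {ω | Detached (fun i => J i ω) n (m ^ 2)} ≤ 1 / 4 := by
      have h1 : ∀ ω, {ω | Detached (fun i => J i ω) n (m ^ 2)}.indicator (fun _ => (1:ℝ)) ω ≤
          Psi A (X m ω) := by
        intro ω
        by_cases hω : Detached (fun i => J i ω) n (m ^ 2)
        · rw [Set.indicator_of_mem (show ω ∈ {ω | Detached (fun i => J i ω) n (m ^ 2)} from hω)]
          have hM := (le_Mx_iff (fun i => J i ω) hK0).2 hω
          have hval : X m ω (s 1 0) = (Mx (fun i => J i ω) (m ^ 2) : ℝ) / m := by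
            rw [hXM m ω (s 1 0) (by
              rw [s_val]; simp only [Nat.cast_zero, zero_div, add_zero, mul_one]
              exact one_le_pow₀ hmr)]
            unfold rescaled
            rw [s_val]
            have : (m:ℝ) ^ 2 * (1 + ((0:ℕ):ℝ) / ((1:ℕ):ℝ)) = ((m ^ 2 : ℕ):ℝ) := by
              push_cast; ring
            rw [this, interp_nat]
          have hge : (A:ℝ) ≤ X m ω (s 1 0) := by
            rw [hval, le_div_iff₀ hmpos]
            have : ((n:ℕ):ℝ) ≤ Mx (fun i => J i ω) (m ^ 2) := by exact_mod_cast hM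
            rw [hn] at this
            push_cast at this
            exact this
          rw [Psi_apply, max_eq_left (by linarith)]
          exact le_min le_rfl (by linarith)
        · rw [Set.indicator_of_notMem (show ω ∉ {ω | Detached (fun i => J i ω) n (m ^ 2)} from hω),
            Psi_apply]
          exact le_min zero_le_one (le_max_right _ _)
      have hmeas : MeasurableSet {ω | Detached (fun i => J i ω) n (m ^ 2)} :=
        hJm (detached_meas n (m ^ 2))
      have h2 := integral_mono ((integrable_const (1:ℝ)).indicator hmeas) (hint m (Psi A)) h1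
      rw [integral_indicator_const _ hmeas, smul_eq_mul, mul_one] at h2
      linarith
    have hp2 : 3 / 4 ≤ (P : Measure Ω).real {ω | Detached (fun i => J i ω) n (B * m ^ 2)} := by
      have hk : 1 ≤ B * m ^ 2 := by
        rw [hB]
        have : 1 ≤ A ^ 2 := Nat.one_le_pow _ _ hA1
        nlinarith
      have hnk : n ≤ B * m ^ 2 := by
        rw [hn, hB]
        have h1 : A ≤ A ^ 2 := by nlinarith
        have h2 : m ≤ m ^ 2 := by nlinarith
        calc A * m ≤ A ^ 2 * m ^ 2 := Nat.mul_le_mul h1 h2
          _ ≤ 4 * A ^ 2 * m ^ 2 := by nlinarith [Nat.zero_le (A ^ 2 * m ^ 2)]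
      have h1 := distinct_ge J hJ hpass htime hlaw hk hnk
      have h2 : (n:ℝ) * n / ((B * m ^ 2 : ℕ):ℝ) = 1 / 4 := by
        rw [hn, hB]; push_cast
        have : (A:ℝ) ≠ 0 := by positivity
        field_simp
      rw [h2] at h1
      have h3 : (P : Measure Ω).real {ω | Distinct (fun i => J i ω) n (B * m ^ 2)} ≤
          (P : Measure Ω).real {ω | Detached (fun i => J i ω) n (B * m ^ 2)} :=
        measureReal_mono fun ω hω => ⟨_, hk, le_rfl, hω⟩
      linarith
    have hjump := jump_prob J hJ hpass htime hlaw (n := n) (d := d) (K0 := m ^ 2)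
      (K := B * m ^ 2) hK0 hnd (by linarith)
    set Gd : Set Ω := {ω | ∃ k, m ^ 2 < k ∧ k ≤ B * m ^ 2 ∧ (fun i => J i ω) ∈ First n k ∧
      Distinct (fun i => J i ω) (n+d) k} with hGd
    have hG : 1 / 4 ≤ (P : Measure Ω).real Gd := by
      refine le_trans ?_ hjump
      have h1 : (1:ℝ) / 2 ≤ (P : Measure Ω).real {ω | Detached (fun i => J i ω) n (B * m ^ 2)} -
        (P : Measure Ω).real {ω | Detached (fun i => J i ω) n (m ^ 2)} := by linarith
      nlinarith
    have hGm : MeasurableSet Gd := by
      have : Gd = (fun ω => (fun i => J i ω : ℕ → ℕ → Bool)) ⁻¹'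
          ⋃ k ∈ Set.Ioc (m ^ 2) (B * m ^ 2), (First n k ∩ {x | Distinct x (n+d) k}) := by
        ext ω
        simp only [hGd, Set.mem_ofPred_eq, Set.mem_preimage, Set.mem_iUnion, Set.mem_Ioc,
          exists_prop, Set.mem_inter_iff]
        constructor
        · rintro ⟨k, h1, h2, h3, h4⟩; exact ⟨k, ⟨h1, h2⟩, h3, h4⟩
        · rintro ⟨k, ⟨h1, h2⟩, h3, h4⟩; exact ⟨k, h1, h2, h3, h4⟩
      rw [this]
      exact hJm (MeasurableSet.biUnion (Set.to_countable _) fun k _ =>
        (first_meas n k).inter (distinct_meas (n+d) k))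
    -- on `Gd` the functional is at least `δ / 2`
    have hpt : ∀ ω, Gd.indicator (fun _ => δ / 2) ω ≤ Phi N B δ (X m ω) := by
      intro ω
      by_cases hω : ω ∈ Gd
      · rw [Set.indicator_of_mem hω]
        obtain ⟨k, hk1, hk2, hk3, hk4⟩ := hω
        have hNr : (1:ℝ) ≤ N := by exact_mod_cast hN1
        have hNpos : (0:ℝ) < N := by linarith
        have hkge : 1 ≤ k := by omega
        have hkm : m ^ 2 ≤ k - 1 := by omega
        have hk1' : 1 ≤ k - 1 := hK0.trans hkm
        set x : ℕ → ℕ → Bool := fun i => J i ω with hx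
        have hM1 : n + d ≤ Mx x k := (le_Mx_iff x hkge).2 ⟨k, hkge, le_rfl, hk4⟩
        have hM2 : Mx x (k - 1) < n := by
          by_contra hcon
          obtain ⟨j, hj1, hj2, hj3⟩ := (le_Mx_iff x hk1').1 (not_lt.1 hcon)
          exact hk3.2 j hj1 (by omega) hj3
        have hdiff : (d:ℝ) + 1 ≤ (Mx x k : ℝ) - Mx x (k - 1) := by
          have : Mx x (k - 1) + (d + 1) ≤ Mx x k := by omega
          have h2 : (Mx x (k - 1) : ℝ) + (d + 1) ≤ Mx x k := by exact_mod_cast this
          linarith
        have hδm : δ * m ≤ d + 1 := by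
          rw [hδ, one_div, inv_mul_eq_div, div_le_iff₀ (by positivity)]
          linarith
        -- grid cell
        have hm2pos : (0:ℝ) < (m:ℝ) ^ 2 := by positivity
        set τ : ℝ := ((k - 1 : ℕ):ℝ) / (m:ℝ) ^ 2 with hτ
        have hτ1 : 1 ≤ τ := by
          rw [hτ, le_div_iff₀ hm2pos, one_mul]
          exact_mod_cast hkm
        have hτB : τ < B := by
          rw [hτ, div_lt_iff₀ hm2pos]
          have : k - 1 < B * m ^ 2 := by omega
          exact_mod_cast this
        set i : ℕ := ⌊(τ - 1) * N⌋₊ with hi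
        have hi1 : (i:ℝ) ≤ (τ - 1) * N := Nat.floor_le (mul_nonneg (by linarith) hNpos.le)
        have hi2 : (τ - 1) * N < i + 1 := Nat.lt_floor_add_one _
        have hiB : i < N * B := by
          have : (i:ℝ) < N * B := by nlinarith
          exact_mod_cast this
        have hs1 : 1 + (i:ℝ) / N ≤ τ := by
          have : (i:ℝ) / N ≤ τ - 1 := by rw [div_le_iff₀ hNpos]; exact hi1
          linarith
        have hs2 : τ + 1 / (m:ℝ) ^ 2 ≤ 1 + ((i+2 : ℕ):ℝ) / N := by
          have h1 : τ - 1 ≤ ((i:ℝ) + 1) / N := by rw [le_div_iff₀ hNpos]; exact hi2.le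
          have h2 : 1 / (m:ℝ) ^ 2 ≤ 1 / N := by
            refine one_div_le_one_div_of_le hNpos ?_
            have : (N:ℝ) ≤ m := by exact_mod_cast hNm
            nlinarith
          have h3 : ((i+2 : ℕ):ℝ) / N = ((i:ℝ) + 1) / N + 1 / N := by push_cast; ring
          rw [h3]; linarith
        have hmono : Monotone fun k : ℕ => (Mx x k : ℝ) := fun a b hab => by
          have := Mx_mono x hab
          simpa using this
        have hsge : ∀ l : ℕ, 1 ≤ (m:ℝ) ^ 2 * ((s N l : Set.Ioi (0:ℝ)) : ℝ) := by
          intro l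
          rw [s_val]
          have h1 : (1:ℝ) ≤ (m:ℝ) ^ 2 := one_le_pow₀ hmr
          have h2 : 0 ≤ (l:ℝ) / N := by positivity
          nlinarith
        have hXi : X m ω (s N i) ≤ (Mx x (k-1) : ℝ) / m := by
          rw [hXM m ω _ (hsge i)]
          unfold rescaled
          refine div_le_div_of_nonneg_right ?_ hmpos.le
          rw [← interp_nat (fun k => (Mx x k : ℝ)) (k-1)]
          refine interp_mono hmono ?_ ?_
          · rw [s_val]; positivity
          · rw [s_val]
            have : ((k-1 : ℕ):ℝ) = (m:ℝ) ^ 2 * τ := by rw [hτ]; field_simp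
            rw [this]
            exact mul_le_mul_of_nonneg_left hs1 hm2pos.le
        have hXi2 : (Mx x k : ℝ) / m ≤ X m ω (s N (i+2)) := by
          rw [hXM m ω _ (hsge (i+2))]
          unfold rescaled
          refine div_le_div_of_nonneg_right ?_ hmpos.le
          rw [← interp_nat (fun k => (Mx x k : ℝ)) k]
          refine interp_mono hmono (Nat.cast_nonneg k) ?_
          rw [s_val]
          have : ((k : ℕ):ℝ) = (m:ℝ) ^ 2 * (τ + 1 / (m:ℝ) ^ 2) := by
            rw [hτ, mul_add]
            have h1 : ((k - 1 : ℕ):ℝ) = (k:ℝ) - 1 := by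
              rw [Nat.cast_sub hkge]; simp
            rw [h1]; field_simp; ring
          rw [this]
          exact mul_le_mul_of_nonneg_left hs2 hm2pos.le
        have hinc : δ ≤ X m ω (s N (i+2)) - X m ω (s N i) := by
          have h1 : δ ≤ (Mx x k : ℝ) / m - (Mx x (k-1) : ℝ) / m := by
            rw [← sub_div, le_div_iff₀ hmpos]
            linarith
          linarith
        rw [Phi_apply]
        refine le_min (by linarith) ?_
        have h1 : δ / 2 ≤ max (|X m ω (s N (i+2)) - X m ω (s N i)| - δ / 2) 0 := by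
          refine le_trans ?_ (le_max_left _ _)
          have := le_abs_self (X m ω (s N (i+2)) - X m ω (s N i))
          linarith
        exact h1.trans (Finset.single_le_sum
          (f := fun i => max (|X m ω (s N (i+2)) - X m ω (s N i)| - δ / 2) 0)
          (fun _ _ => le_max_right _ _) (Finset.mem_range.2 hiB))
      · rw [Set.indicator_of_notMem hω, Phi_apply]
        exact le_min zero_le_one (Finset.sum_nonneg fun _ _ => le_max_right _ _)
    have h2 := integral_mono ((integrable_const (δ / 2)).indicator hGm) (hint m (Phi N B δ)) hpt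
    rw [integral_indicator_const _ hGm, smul_eq_mul] at h2
    nlinarith
  -- pass to the limit
  have hlim : ∀ N : ℕ, 1 ≤ N → δ / 8 ≤ ∫ f, Phi N B δ f ∂(μ : Measure PathSpace) := by
    intro N hN
    refine ge_of_tendsto (hμ (Phi N B δ)) ?_
    filter_upwards [hlow, eventually_ge_atTop N] with m h1 h2
    exact h1 N hN h2
  have hzero : Tendsto (fun N : ℕ => ∫ f, Phi N B δ f ∂(μ : Measure PathSpace)) atTop
      (𝓝 (∫ _f : PathSpace, (0:ℝ) ∂(μ : Measure PathSpace))) := by
    refine tendsto_integral_of_dominated_convergence (fun _ => 1)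
      (fun N => (Phi N B δ).continuous.aestronglyMeasurable) (integrable_const 1)
      (fun N => ae_of_all _ fun f => ?_) (ae_of_all _ fun f => Phi_tendsto B hδpos f)
    rw [Phi_apply, Real.norm_eq_abs, abs_of_nonneg
      (le_min zero_le_one (Finset.sum_nonneg fun _ _ => le_max_right _ _))]
    exact min_le_left _ _
  rw [integral_zero] at hzero
  have hcontra := ge_of_tendsto hzero ((eventually_ge_atTop 1).mono fun N hN => hlim N hN)
  linarith

end Pool.Agent.Results.MP_d01e83_pr.NoLimitInC
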